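import Pool.Agent.H47.THN.Targets
import Pool.Agent.H27.L1.All

/-!
Board thn (MP_52e316_nt), row OC1: the kernel of one Hecke operator, its majorant, its measurability
and its eigenvalue, over the L1 closure.
-/

set_option autoImplicit false

namespace Pool.Agent.H20.THN

open MeasureTheory Pool.Agent.H27.L1.H34.GM Pool.Agent.H27.L1.H34.GZ Pool.Agent.H27.L1.H34.GU
  Pool.Agent.H27.L1.H34.GA Pool.Agent.H27.L1.H68.GHY Pool.Agent.H47.THN

open Classical in
/-- a sum over matrices as a sum over the classes -/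
theorem ker_sum {m N : ℕ} [NeZero N] (f φ : ZM m → ℂ) (x : VN m N) (F : VN m N → ℂ)
    (hF : ∀ x, ¬ Pr x → F x = 0) (hfin : {γ : ZM m | f γ * φ γ ≠ 0}.Finite) :
    ∑' γ : ZM m, f γ * (φ γ * F (ac N γ x)) =
      ∑ w : VN m N, (∑' γ : ZM m, if ac N γ x = w ∧ Pr w then f γ * φ γ else 0) * F w := by
  have hsum : ∀ w : VN m N, Summable (fun γ : ZM m =>
      (if ac N γ x = w ∧ Pr w then f γ * φ γ else 0) * F w) := by
    intro w
    apply summable_of_hasFiniteSupport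
    apply Set.Finite.subset hfin
    intro γ hγ
    rw [Function.mem_support] at hγ
    have h2 := left_ne_zero_of_mul hγ
    by_cases h1 : ac N γ x = w ∧ Pr w
    · rw [if_pos h1] at h2
      exact h2
    · rw [if_neg h1] at h2
      exact absurd rfl h2
  have h1 : ∑ w : VN m N, (∑' γ : ZM m, if ac N γ x = w ∧ Pr w then f γ * φ γ else 0) * F w =
      ∑ w : VN m N, ∑' γ : ZM m, (if ac N γ x = w ∧ Pr w then f γ * φ γ else 0) * F w := by
    apply Finset.sum_congr rfl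
    intro w _
    rw [tsum_mul_right]
  rw [h1, ← Summable.tsum_finsetSum fun w _ => hsum w]
  apply tsum_congr
  intro γ
  rw [Finset.sum_eq_single (ac N γ x)]
  · by_cases h3 : Pr (ac N γ x)
    · rw [if_pos ⟨rfl, h3⟩, mul_assoc]
    · rw [hF _ h3, mul_zero, mul_zero, mul_zero]
  · intro w _ hw
    rw [if_neg fun h => hw h.1.symm, zero_mul]
  · intro h
    exact absurd (Finset.mem_univ _) h

theorem natAbs_unit_mul {m : ℕ} (u γ : ZM m) (hu : IsUnit u) :
    (u * γ).det.natAbs = γ.det.natAbs := by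
  have h1 : IsUnit u.det := (Matrix.isUnit_iff_isUnit_det u).mp hu
  rw [Matrix.det_mul, Int.natAbs_mul, Int.isUnit_iff_natAbs_eq.mp h1, one_mul]

theorem det_mt_ne {m N : ℕ} [NeZero N] {T : ℕ → Finset (ZM m)} {D : Set (V m)}
    (hS : SysZ m N T D) : ∀ z ∈ D, (mt z).det ≠ 0 := by
  intro z hz h0
  have h1 := (hS.dom.shell z hz).1
  have h2 := hS.one_le
  unfold aN at h1
  rw [h0, abs_zero, Real.zero_rpow (by positivity)] at h1
  norm_num at h1

/-- the eigenvalue of the operator with a function `b` of the determinant -/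
theorem ocf_gen (hUNF : Pool.Agent.H27.L1.H68.GHY.T_UNF) (hRRA : T_RRA) {m N : ℕ} [NeZero N] {T : ℕ → Finset (ZM m)}
    {D : Set (V m)} (hS : SysZ m N T D) {F : Mat m → VN m N → ℂ} {lam : ℕ → ℂ}
    (hF : HecA m N T F lam) {Φ : Mat m → ℂ} (hΦ : Tg m Φ) (b : ℕ → ℂ) (X : ℝ) (hb0 : b 0 = 0)
    (hb : ∀ n : ℕ, X < n → b n = 0) (g : Mat m) (x : VN m N) (hg : g.det ≠ 0) :
    ∫ z in D, ∑' γ : ZM m, b γ.det.natAbs *
        (Φ (kk (aN (cR γ)) (mt z) (cR γ) g) * F (mt z) (ac N γ x)) ∂(hm m) =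
      (∑ n ∈ Finset.Icc 1 ⌊X⌋₊, b n * ((n : ℂ) ^ (((m : ℂ) - 1) / 2) * lam n)) *
        Rr Φ 1 F g x := by
  have hG := hRRA m N T D hS F lam hF Φ hΦ
  rw [hUNF m N T D hS F lam hF Φ hΦ (fun γ : ZM m => b γ.det.natAbs) X
    (fun u γ hu _ => by simp only [natAbs_unit_mul u γ hu])
    (by
      intro γ hγ
      refine ⟨?_, ?_⟩
      · intro h0
        simp only [h0, Int.natAbs_zero] at hγ
        exact hγ hb0
      · by_contra h
        push Not at h
        exact hγ (hb _ h)) g x hg, Finset.sum_mul]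
  refine Finset.sum_congr rfl fun n hn => ?_
  have hn1 : 1 ≤ n := (Finset.mem_Icc.mp hn).1
  have h1 : ∑ ρ ∈ T n, b ρ.det.natAbs * Rr Φ 1 F (cR ρ * g) (ac N ρ x) =
      ∑ ρ ∈ T n, b n * Rr Φ 1 F (cR ρ * g) (ac N ρ x) :=
    Finset.sum_congr rfl fun ρ hρ => by rw [hS.reps.mem n hn1 ρ hρ]
  rw [h1, ← Finset.mul_sum, hG.hecke n hn1 g x hg]
  ring

open Classical in
/-- the kernel of the operator with a function `b` of the determinant -/
noncomputable def Kb {m N : ℕ} (Φ : Mat m → ℂ) (b : ℕ → ℂ) (g : Mat m) (x : VN m N)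
    (h : Mat m) (w : VN m N) : ℂ :=
  ∑' γ : ZM m, if ac N γ x = w ∧ Pr w then
    b γ.det.natAbs * Φ (kk (aN (cR γ)) h (cR γ) g) else 0

/-- the coefficients in the window -/
noncomputable def bw (a : ℕ → ℂ) (d x0 : ℝ) (n : ℕ) : ℂ :=
  haveI := Classical.dec (wd x0 d n)
  if wd x0 d n then a n else 0

theorem bw_pos {a : ℕ → ℂ} {d x0 : ℝ} {n : ℕ} (h : wd x0 d n) : bw a d x0 n = a n := by
  unfold bw
  rw [if_pos h]

theorem bw_neg {a : ℕ → ℂ} {d x0 : ℝ} {n : ℕ} (h : ¬ wd x0 d n) : bw a d x0 n = 0 := by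
  unfold bw
  rw [if_neg h]

theorem bw_ne {a : ℕ → ℂ} {d x0 : ℝ} {n : ℕ} (h : bw a d x0 n ≠ 0) :
    wd x0 d n ∧ bw a d x0 n = a n ∧ a n ≠ 0 := by
  by_cases h1 : wd x0 d n
  · refine ⟨h1, bw_pos h1, ?_⟩
    rw [bw_pos h1] at h
    exact h
  · exact absurd (bw_neg h1) h

/-- the kernel of one Hecke operator in the window is bounded by the majorant `Kd` at `√y` -/
theorem kb_le (hIDX : T_IDX) {m N : ℕ} {χ : ℝ → ℝ} (hχ : Prof χ) {y : ℝ} {a : ℕ → ℂ}
    (hy : 0 < y) (ha : Coe y a) {d x0 : ℝ} (hd : 0 < d) (g h : Mat m) (x w : VN m N) :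
    ENNReal.ofReal ‖Kb (bi m χ d) (bw a d x0) g x h w‖ ≤ Kd d (Real.sqrt y) x0 g x h w := by
  unfold Kb Kd
  rw [ofReal_norm]
  refine enorm_tsum_le_tsum_enorm.trans (ENNReal.tsum_le_tsum fun γ => ?_)
  by_cases h1 : ac N γ x = w ∧ Pr w
  · rw [if_pos h1]
    by_cases h2 : bi m χ d (kk (aN (cR γ)) h (cR γ) g) = 0
    · rw [h2]
      simp
    · by_cases h6 : bw a d x0 γ.det.natAbs = 0
      · rw [h6]
        simp
      · have h3 := Pool.Agent.H27.L1.H49.GHY.bi_supp1 hχ hd _ h2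
        obtain ⟨h7, h8, h9⟩ := bw_ne h6
        have h10 := ha.supp _ h9
        have h11 : (Real.sqrt y) ^ 2 = y := Real.sq_sqrt hy.le
        have h12 : γ.det ≠ 0 := by
          intro h0
          rw [h0, Int.natAbs_zero, Nat.cast_zero] at h10
          linarith [h10.1]
        rw [if_pos ⟨h1.1, h1.2, h7, by rw [h11]; linarith [h10.1], by rw [h11]; exact h10.2, h3⟩,
          ← ofReal_norm]
        have h13 : (NL γ : ENNReal) = ENNReal.ofReal ((NL γ : ℕ) : ℝ) :=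
          (ENNReal.ofReal_natCast _).symm
        rw [h13]
        apply ENNReal.ofReal_le_ofReal
        have h14 : 1 ≤ NL γ := by
          have := Pool.Agent.H27.L1.H13.GHY.fin_sub hIDX h12
          have : Nonempty {M : AddSubgroup (Fin m → ℤ) // ∀ i, γ i ∈ M} :=
            ⟨⟨⊤, fun _ => AddSubgroup.mem_top _⟩⟩
          exact Nat.card_pos
        have h15 : (1 : ℝ) ≤ NL γ := by exact_mod_cast h14
        rw [norm_mul, h8]
        calc ‖a γ.det.natAbs‖ * ‖bi m χ d (kk (aN (cR γ)) h (cR γ) g)‖ ≤ 1 * 1 :=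
              mul_le_mul (ha.bd _) (Pool.Agent.H27.L1.H79.GA.bi_norm_le hχ d _) (norm_nonneg _)
                zero_le_one
          _ ≤ _ := by rw [one_mul]; exact h15
  · rw [if_neg h1]
    simp

/-- measurability of the kernel -/
theorem kb_meas (hMSR : T_MSR) {m N : ℕ} {Φ : Mat m → ℂ} (hΦ : Tg m Φ) (b : ℕ → ℂ)
    (x w : VN m N) : Measurable (fun p : V m × V m => Kb Φ b (mt p.1) x (mt p.2) w) := by
  classical
  obtain ⟨hms, -, -⟩ := hMSR
  obtain ⟨-, -, -, hsz, -, -, hkk, hΦc⟩ := hms m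
  have hct : Countable (ZM m) := (inferInstance : Countable (Fin m → Fin m → ℤ))
  unfold Kb
  refine Measurable.tsum fun γ => ?_
  refine Measurable.ite (MeasurableSet.const _) ?_ measurable_const
  exact (Pool.Agent.H27.L1.H69.GHY.kmd_kk Φ (cR γ) (hkk (aN (cR γ)) (cR γ)) (hΦc Φ hΦ.cont)).const_mul _

/-- **the eigenvalue of the operator** -/
theorem kb_eig (hUNF : Pool.Agent.H27.L1.H68.GHY.T_UNF) (hBIA : T_BIA) (hRRA : T_RRA) {m N : ℕ}
    [NeZero N] {T : ℕ → Finset (ZM m)} {D : Set (V m)} (hS : SysZ m N T D)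
    {F : Mat m → VN m N → ℂ} {lam : ℕ → ℂ} (hF : HecA m N T F lam) {χ : ℝ → ℝ} (hχ : Prof χ)
    {y : ℝ} {a : ℕ → ℂ} {d x0 : ℝ} (hy : 0 < y) (ha : Coe y a) (hd : 0 < d) (hd2 : d ≤ 1 / 2)
    (g : Mat m) (x : VN m N) (hg : g.det ≠ 0) :
    ∫ z in D, ∑ w : VN m N, Kb (bi m χ d) (bw a d x0) g x (mt z) w * F (mt z) w ∂(hm m) =
      B1 m lam a y d x0 * Rr (bi m χ d) 1 F g x := by
  classical
  obtain ⟨C, -, hC⟩ := hBIA m χ hS.one_le hχ
  have hΦ : Tg m (bi m χ d) := (hC d hd hd2).1.toTg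
  have ha0 : a 0 = 0 := by
    by_contra h
    have := (ha.supp 0 h).1
    rw [Nat.cast_zero] at this
    linarith
  have h1 : ∫ z in D, ∑ w : VN m N, Kb (bi m χ d) (bw a d x0) g x (mt z) w * F (mt z) w
        ∂(hm m) =
      ∫ z in D, ∑' γ : ZM m, bw a d x0 γ.det.natAbs *
        (bi m χ d (kk (aN (cR γ)) (mt z) (cR γ) g) * F (mt z) (ac N γ x)) ∂(hm m) := by
    refine setIntegral_congr_fun hS.dom.meas fun z hz => ?_
    have hh := det_mt_ne hS z hz
    refine (ker_sum (fun γ : ZM m => bw a d x0 γ.det.natAbs)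
      (fun γ : ZM m => bi m χ d (kk (aN (cR γ)) (mt z) (cR γ) g)) x (fun w => F (mt z) w)
      (fun w hw => hF.supp _ w hw) ?_).symm
    refine (Pool.Agent.H27.L1.H79.GA.sz_finite hS.one_le y g (mt z) hg hh).subset ?_
    intro γ hγ
    have h2 := left_ne_zero_of_mul hγ
    have h3 := (bw_ne h2).2.2
    exact ⟨(ha.supp _ h3).1, (ha.supp _ h3).2,
      Pool.Agent.H27.L1.H79.GA.bi_supp hχ hd hd2 _ (right_ne_zero_of_mul hγ)⟩
  rw [h1, ocf_gen hUNF hRRA hS hF hΦ (bw a d x0) y ?_ ?_ g x hg]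
  · congr 1
    unfold B1
    refine Finset.sum_congr rfl fun n _ => ?_
    unfold tl
    by_cases hw : wd x0 d n
    · rw [bw_pos hw, if_pos hw]
    · rw [bw_neg hw, if_neg hw, zero_mul]
  · by_contra h
    exact (bw_ne h).2.2 ha0
  · intro n hn
    by_contra h
    exact absurd (ha.supp n (bw_ne h).2.2).2 (not_le.mpr hn)

/-- the kernel of the targets -/
theorem K1_eq {m N : ℕ} (Φ : Mat m → ℂ) {y : ℝ} {a : ℕ → ℂ} (hy : 0 < y) (ha : Coe y a)
    (d x0 : ℝ) (g : Mat m) (x : VN m N) (h : Mat m) (w : VN m N) :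
    K1 Φ a d x0 g x h w = Kb Φ (bw a d x0) g x h w := by
  classical
  have ha0 : a 0 = 0 := by
    by_contra h
    have := (ha.supp 0 h).1
    rw [Nat.cast_zero] at this
    linarith
  unfold K1 Kb
  refine tsum_congr fun γ => ?_
  by_cases h1 : ac N γ x = w ∧ Pr w
  · rw [if_pos h1]
    by_cases h2 : γ.det ≠ 0
    · by_cases h3 : wd x0 d γ.det.natAbs
      · rw [if_pos ⟨h1.1, h1.2, h2, h3⟩, bw_pos h3]
      · rw [if_neg fun h => h3 h.2.2.2, bw_neg h3, zero_mul]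
    · rw [if_neg fun h => h2 h.2.2.1]
      push Not at h2
      have h4 : bw a d x0 γ.det.natAbs = 0 := by
        by_contra h5
        have h6 := (bw_ne h5).2.2
        rw [h2, Int.natAbs_zero] at h6
        exact h6 ha0
      rw [h4, zero_mul]
  · rw [if_neg fun h => h1 ⟨h.1, h.2.1⟩, if_neg h1]

/-- **row OC1** -/
theorem pf_OC1 (hUNF : Pool.Agent.H27.L1.H68.GHY.T_UNF) (hBIA : T_BIA) (hRRA : T_RRA) :
    T_OC1 := by
  intro m N _ T D hS F lam hF χ hχ y a d x0 hy ha hd hd2 _ g x hg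
  rw [← kb_eig hUNF hBIA hRRA hS hF hχ (by linarith) ha hd hd2 g x hg]
  simp only [K1_eq (bi m χ d) (by linarith : (0 : ℝ) < y) ha]

theorem c_OC1 : T_OC1 := pf_OC1 Pool.Agent.H27.L1.H23.GHY.All.c_UNF
  Pool.Agent.H27.L1.H23.GA.All.c_BIA Pool.Agent.H27.L1.H23.GA.All.c_RRA

/-- **row KM1** -/
theorem pf_KM1 (hMSR : T_MSR) : T_KM1 := by
  classical
  intro m N d x w _ Φ hΦ a x0
  obtain ⟨hms, -, -⟩ := hMSR
  obtain ⟨-, -, -, hsz, -, -, hkk, hΦc⟩ := hms m
  have hct : Countable (ZM m) := (inferInstance : Countable (Fin m → Fin m → ℤ))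
  unfold K1
  refine Measurable.tsum fun γ => ?_
  refine Measurable.ite (MeasurableSet.const _) ?_ measurable_const
  exact (Pool.Agent.H27.L1.H69.GHY.kmd_kk Φ (cR γ) (hkk (aN (cR γ)) (cR γ))
    (hΦc Φ hΦ.cont)).const_mul _

/-- **row KC1** -/
theorem pf_KC1 (hIDX : T_IDX) : T_KC1 := by
  classical
  intro m N _ χ hm hN hχ y a d x0 hy ha hd hd2 hx0
  have hy0 : 0 < y := by linarith
  refine ⟨?_, ?_⟩
  · intro g h x w
    rw [K1_eq (bi m χ d) hy0 ha]
    exact kb_le hIDX hχ hy0 ha hd g h x w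
  · intro F hF g h x hg hh
    have h1 := ker_sum (fun γ : ZM m => bw a d x0 γ.det.natAbs)
      (fun γ : ZM m => bi m χ d (kk (aN (cR γ)) h (cR γ) g)) x F hF (by
        refine (Pool.Agent.H27.L1.H79.GA.sz_finite hm y g h hg hh).subset ?_
        intro γ hγ
        have h2 := left_ne_zero_of_mul hγ
        have h3 := (bw_ne h2).2.2
        exact ⟨(ha.supp _ h3).1, (ha.supp _ h3).2,
          Pool.Agent.H27.L1.H79.GA.bi_supp hχ hd hd2 _ (right_ne_zero_of_mul hγ)⟩)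
    have h4 : ∀ w : VN m N, K1 (bi m χ d) a d x0 g x h w =
        ∑' γ : ZM m, if ac N γ x = w ∧ Pr w then
          bw a d x0 γ.det.natAbs * bi m χ d (kk (aN (cR γ)) h (cR γ) g) else 0 :=
      fun w => K1_eq (bi m χ d) hy0 ha d x0 g x h w
    simp only [h4]
    rw [← h1]
    refine tsum_congr fun γ => ?_
    congr 1
    by_cases h2 : γ.det ≠ 0
    · by_cases h3 : wd x0 d γ.det.natAbs
      · rw [if_pos ⟨h2, h3⟩, bw_pos h3]
      · rw [if_neg fun h => h3 h.2, bw_neg h3]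
    · rw [if_neg fun h => h2 h.1]
      push Not at h2
      by_contra h5
      have h6 := (bw_ne (Ne.symm h5)).2.2
      rw [h2, Int.natAbs_zero] at h6
      have := (ha.supp 0 h6).1
      rw [Nat.cast_zero] at this
      linarith

theorem c_KM1 : T_KM1 := pf_KM1 Pool.Agent.H27.L1.H34.GZ.g_MSR

theorem c_KC1 : T_KC1 := pf_KC1 Pool.Agent.H27.L1.H34.GZ.a_IDX

end Pool.Agent.H20.THN
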